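import Pool.Agent.V1173.Herg.Ident

/-!
# MP_ab521b: null subspaces for the Herglotz measures of the ball

The largest complex dimension of a `P_H`-null complex subspace of `ℂⁿ` is `n - 1` and the largest
real dimension of a `P_H`-null real subspace is `2 n - 1`.
-/

open Pool.Agent.V1173.Herg

namespace Pool.Agent.Results.MP_ab521b_an.HerglotzNull

theorem result (n : ℕ) (hn : 2 ≤ n) :
    IsGreatest {d : ℕ | ∃ V : Submodule ℂ (Cn n), Module.finrank ℂ V = d ∧ PHNull (V : Set (Cn n))}
      (n - 1) ∧
    IsGreatest {d : ℕ | ∃ V : Submodule ℝ (Cn n), Module.finrank ℝ V = d ∧ PHNull (V : Set (Cn n))}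
      (2 * n - 1) :=
  answer hn

end Pool.Agent.Results.MP_ab521b_an.HerglotzNull
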